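import Pool.Agent.Zk41.NP3
import Pool.Agent.Zk41.NP4

/-!
# Knjzek partitions with an almost prime: the right number, and narrow progressions, at all scales

Knjzek's conjecture: every even `m > 4` is `p + q` with primes `p`, `q` and `√m < p ≤ m / 2`. Here `q = m - p` has at most `r`
prime factors (all of them `≥ m ^ (1/17)`) and `p` has an arbitrary prescribed size `x` in `(√m, m / 2]`.

Let `Λ_r = r + 1 - log (4 / (1 + 3 ^ (-r))) / log 3` (Richert), `1 / 2 ≤ θ ≤ 1`, `η ≥ 0` and `θ + η > 2 / Λ_r`. For all but at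
most `C X ^ η` of the even `m ≤ X`, at EVERY scale `x` with `4 m ^ θ ≤ x ≤ m / 2` the number of the primes `p`, `x / 4 < p < x`,
for which `m - p` has at most `r` prime factors has at least the right order of magnitude `c 𝔖(m) x / (log m) ^ 2`, and every
subset with a positive proportion of these primes contains `k` members in arithmetic progression with a difference at most
`(log m) ^ B`.

For `η = 0` there are no exceptions among the large even numbers: `θ = 0.722` for `r = 3`, `θ = 0.534` for `r = 4` and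
`θ = 1 / 2` (all scales of the problem) for `r = 5`. For `θ = 1 / 2` (all scales of the problem) the exceptions are at most
`C X ^ 0.591` for `r = 2`, `C X ^ 0.222` for `r = 3`, `C X ^ 0.034` for `r = 4`.

Definition used from `Pool.Agent.H560R3.GB` (starting files): `sing m`: the singular series
`2 C₂ ∏_{p ∣ m, p > 2} (p - 1) / (p - 2)`, where `C₂ = ∏_{p > 2} (1 - 1 / (p - 1) ^ 2)`.

Proof. Lower bounds: the weighted linear sieve of the starting files (`Y882.GX`, `K3h19.RV`), summed over the dyadic scales.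
Progressions: `Zk41.NP4` (dense sets of primes `p` with `m - p` rough, in all windows of length `≥ m ^ θ`, for every `m`), from
the theorem `S_ENGX` of the starting files (`K3h89.SX`), which was applied there to Rivera's window `√m < p < 4 √m`.
-/

set_option autoImplicit false

namespace Pool.Agent.Results.MP_73b532_nt.AlmostPrimesAllScales

open Finset Filter
open Pool.Agent.H560R3.GB (sing C₂)

/-- `S` contains a progression `a, a + d, …, a + (k - 1) d` with difference `1 ≤ d ≤ D`. -/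
def HasAP (k : ℕ) (D : ℝ) (S : Finset ℕ) : Prop :=
  ∃ a d : ℕ, 1 ≤ d ∧ (d : ℝ) ≤ D ∧ ∀ i < k, a + i * d ∈ S

open Classical in
/-- the primes `p` with `x / 4 < p < x`, `p < m`, such that `m - p` has at most `r` prime factors (counted with
multiplicity), all of them at least `w` -/
noncomputable def P (r : ℕ) (w : ℝ) (m : ℕ) (x : ℝ) : Finset ℕ :=
  (range m).filter (fun p : ℕ => p.Prime ∧ x / 4 < p ∧ (p : ℝ) < x ∧
    (m - p).primeFactorsList.length ≤ r ∧ ∀ q : ℕ, q.Prime → q ∣ (m - p) → w ≤ q)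

/-- `P r w m x` has at least `c 𝔖(m) x / (log m) ^ 2` elements, and every subset with at least `κ |P r w m x|`
elements contains a progression of length `k` with difference at most `(log m) ^ B`. -/
def Szemeredi (r : ℕ) (w c : ℝ) (k : ℕ) (κ : ℝ) (B m : ℕ) (x : ℝ) : Prop :=
  c * (sing m * x / Real.log m ^ 2) ≤ (P r w m x).card ∧
    ∀ S ⊆ P r w m x, κ * (P r w m x).card ≤ S.card → HasAP k (Real.log m ^ B) S

/-- the constant of Richert, `r + 1 - log (4 / (1 + 3 ^ (-r))) / log 3` -/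
noncomputable def Lam (r : ℕ) : ℝ := r + 1 - Real.log (4 / (1 + (1 / 3) ^ r)) / Real.log 3

theorem Lam_eq (r : ℕ) : Lam r = Pool.Agent.K3h19.RV.Lam r := by
  have hL0 : 0 < Real.log 3 := by linarith [Pool.Agent.K3h19.RV.log3_pos]
  unfold Lam Pool.Agent.K3h19.RV.Lam
  have h3 : (0 : ℝ) < 3 ^ r := by positivity
  have e1 : (4 : ℝ) / (1 + (1 / 3) ^ r) = 3 ^ r / ((3 ^ r + 1) / 4) := by
    rw [div_pow, one_pow]
    field_simp
  rw [e1, Real.log_div (by positivity) (by positivity), Real.log_pow, sub_div,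
    mul_div_assoc, div_self hL0.ne']
  ring

/-- subsets of positive proportion, at all scales -/
theorem sub (r k : ℕ) (δ c κ : ℝ) (hδ : 0 < δ) (hc : 0 < c) (hκ : 0 < κ) : ∃ B m₀ : ℕ, ∀ m : ℕ, m₀ ≤ m →
    Even m → ∀ x : ℝ, 4 * √(m : ℝ) ≤ x → x ≤ m / 2 →
      c * (sing m * x / Real.log m ^ 2) ≤ (P r ((m : ℝ) ^ δ) m x).card →
      Szemeredi r ((m : ℝ) ^ δ) c k κ B m x := by
  classical
  obtain ⟨B, m₀, h⟩ := Pool.Agent.Zk41.NP.dense (1 / 2) (by norm_num) k δ (κ * c) hδ (by positivity)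
  refine ⟨B, max m₀ 1, fun m hm hev x hx1 hx2 hG => ⟨hG, fun S hS hSc => ?_⟩⟩
  have hs0 : 0 ≤ √(m : ℝ) := Real.sqrt_nonneg _
  have hs : (m : ℝ) ^ (1 / 2 : ℝ) = √(m : ℝ) := (Real.sqrt_eq_rpow _).symm
  have hx0 : 0 ≤ x := by linarith
  apply h m ((le_max_left _ _).trans hm) hev (x / 4) x (by linarith) hx2 (by rw [hs]; linarith) S
  · intro p hp
    have h1 := hS hp
    unfold P at h1
    rw [mem_filter] at h1
    exact ⟨h1.2.1, h1.2.2.1, h1.2.2.2.1.le, h1.2.2.2.2.2⟩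
  · refine le_trans ?_ hSc
    have h1 : 0 ≤ sing m := Pool.Agent.Zk41.NP.sing_nonneg m
    have h2 : sing m * (x - x / 4) / Real.log m ^ 2 ≤ sing m * x / Real.log m ^ 2 :=
      div_le_div_of_nonneg_right (mul_le_mul_of_nonneg_left (by linarith) h1) (by positivity)
    calc κ * c * (sing m * (x - x / 4) / Real.log m ^ 2) ≤ κ * c * (sing m * x / Real.log m ^ 2) :=
          mul_le_mul_of_nonneg_left h2 (by positivity)
      _ = κ * (c * (sing m * x / Real.log m ^ 2)) := by ring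
      _ ≤ κ * (P r ((m : ℝ) ^ δ) m x).card := mul_le_mul_of_nonneg_left hG hκ.le

lemma conv (m : ℕ) (δ x N : ℝ) (hδ : 0 < δ) (hx : 0 ≤ x)
    (h : δ * Pool.Agent.Y882.sgs m * (x / Real.log m ^ 2) ≤ N) :
    δ / 2 * (sing m * x / Real.log m ^ 2) ≤ N := by
  refine le_trans ?_ h
  have h1 : sing m ≤ 2 * Pool.Agent.Y882.sgs m := Pool.Agent.Zk41.NP.sing_le_sg m
  have h2 : 0 ≤ x / Real.log m ^ 2 := by positivity
  calc δ / 2 * (sing m * x / Real.log m ^ 2) = δ / 2 * (sing m * (x / Real.log m ^ 2)) := by ring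
    _ ≤ δ / 2 * (2 * Pool.Agent.Y882.sgs m * (x / Real.log m ^ 2)) :=
        mul_le_mul_of_nonneg_left (mul_le_mul_of_nonneg_right h1 h2) (by positivity)
    _ = δ * Pool.Agent.Y882.sgs m * (x / Real.log m ^ 2) := by ring

open Classical in
/-- all scales -/
theorem main (r : ℕ) (hr : 2 ≤ r) (θ η : ℝ) (hθ2 : 1 / 2 ≤ θ) (hθ1 : θ ≤ 1) (hη0 : 0 ≤ η)
    (hη : 2 / Lam r < θ + η) :
    ∃ c : ℝ, 0 < c ∧ ∀ (k : ℕ) (κ : ℝ), 0 < κ → ∃ (B : ℕ) (C : ℝ), 0 < C ∧ ∀ X : ℕ, 1 ≤ X →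
      (((Icc 1 X).filter (fun m : ℕ => Even m ∧ ∃ x : ℝ, 4 * (m : ℝ) ^ θ ≤ x ∧ x ≤ m / 2 ∧
        ¬ Szemeredi r ((m : ℝ) ^ ((1 : ℝ) / 17)) c k κ B m x)).card : ℝ) ≤ C * (X : ℝ) ^ η := by
  rw [Lam_eq] at hη
  obtain ⟨δ, C, hδ, hC, h1⟩ := Pool.Agent.Zk41.NP.scale r hr θ η hθ2 hθ1 hη0 hη
  refine ⟨δ / 2, by positivity, fun k κ hκ => ?_⟩
  obtain ⟨B, N₂, h2⟩ := sub r k (1 / 17) (δ / 2) κ (by norm_num) (by positivity) hκ
  refine ⟨B, C + N₂, by positivity, fun X hX => ?_⟩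
  have h3 := h1 X hX
  have hX1 : (1 : ℝ) ≤ X := by exact_mod_cast hX
  have hXη : (1 : ℝ) ≤ (X : ℝ) ^ η := Real.one_le_rpow hX1 hη0
  have hsub : (Icc 1 X).filter (fun m : ℕ => Even m ∧ ∃ x : ℝ, 4 * (m : ℝ) ^ θ ≤ x ∧ x ≤ m / 2 ∧
      ¬ Szemeredi r ((m : ℝ) ^ ((1 : ℝ) / 17)) (δ / 2) k κ B m x) ⊆
      ((Icc 1 X).filter (fun N : ℕ => Even N ∧ ∃ x : ℝ, 4 * (N : ℝ) ^ θ ≤ x ∧ x ≤ N / 2 ∧
        ((Pool.Agent.Zk41.NP.Pset r ((N : ℝ) ^ ((1 : ℝ) / 17)) N x).card : ℝ) <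
          δ * Pool.Agent.Y882.sgs N * (x / Real.log N ^ 2))) ∪ range N₂ := by
    intro m hm
    rw [mem_filter] at hm
    obtain ⟨hm1, hev, x, hx1, hx2, hx3⟩ := hm
    rw [mem_union, mem_filter, mem_range]
    by_contra hcon
    rw [not_or, not_lt] at hcon
    apply hx3
    have hm1' : (1 : ℝ) ≤ m := by exact_mod_cast (mem_Icc.1 hm1).1
    have hs : √(m : ℝ) ≤ (m : ℝ) ^ θ := by
      rw [Real.sqrt_eq_rpow]
      exact Real.rpow_le_rpow_of_exponent_le hm1' hθ2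
    have hx0 : 0 ≤ x := by
      have := Real.sqrt_nonneg (m : ℝ)
      linarith
    apply h2 m hcon.2 hev x (by linarith) hx2
    apply conv m δ x _ hδ hx0
    by_contra hlt
    apply hcon.1
    rw [not_le] at hlt
    exact ⟨hm1, hev, x, hx1, hx2, hlt⟩
  have h4 := (card_le_card hsub).trans (card_union_le _ _)
  rw [card_range] at h4
  have h7 := (Nat.cast_le (α := ℝ)).2 h4
  rw [Nat.cast_add] at h7
  refine h7.trans ((add_le_add h3 le_rfl).trans ?_)
  have h6 : (N₂ : ℝ) ≤ N₂ * (X : ℝ) ^ η := le_mul_of_one_le_right (Nat.cast_nonneg _) hXη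
  linarith

open Classical in
/-- **Knjzek partitions with an almost prime at all scales.** See the description above. -/
theorem result :
    (∀ r : ℕ, 2 ≤ r → ∀ θ η : ℝ, 1 / 2 ≤ θ → θ ≤ 1 → 0 ≤ η → 2 / Lam r < θ + η → ∃ c : ℝ, 0 < c ∧
      ∀ (k : ℕ) (κ : ℝ), 0 < κ → ∃ (B : ℕ) (C : ℝ), 0 < C ∧ ∀ X : ℕ, 1 ≤ X →
        (((Icc 1 X).filter (fun m : ℕ => Even m ∧ ∃ x : ℝ, 4 * (m : ℝ) ^ θ ≤ x ∧ x ≤ m / 2 ∧
          ¬ Szemeredi r ((m : ℝ) ^ ((1 : ℝ) / 17)) c k κ B m x)).card : ℝ) ≤ C * (X : ℝ) ^ η) ∧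
    2 / Lam 2 < 1091 / 1000 ∧ 2 / Lam 3 < 722 / 1000 ∧ 2 / Lam 4 < 534 / 1000 ∧ 2 / Lam 5 < 1 / 2 := by
  refine ⟨fun r hr θ η h1 h2 h3 h4 => main r hr θ η h1 h2 h3 h4, ?_, ?_, ?_, ?_⟩
  · rw [Lam_eq]
    have h := Pool.Agent.K3h19.RV.lam_two
    have : 2 / Pool.Agent.K3h19.RV.Lam 2 ≤ 2 / (1 + 5 / 6) :=
      div_le_div_of_nonneg_left (by norm_num) (by norm_num) h
    norm_num at this ⊢
    linarith
  · rw [Lam_eq]
    have h := Pool.Agent.K3h19.RV.lam_three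
    have : 2 / Pool.Agent.K3h19.RV.Lam 3 ≤ 2 / (1 + 131 / 74) :=
      div_le_div_of_nonneg_left (by norm_num) (by norm_num) h
    norm_num at this ⊢
    linarith
  · rw [Lam_eq]
    have h := Pool.Agent.K3h19.RV.lam_four
    have : 2 / Pool.Agent.K3h19.RV.Lam 4 ≤ 2 / (1 + 151 / 55) :=
      div_le_div_of_nonneg_left (by norm_num) (by norm_num) h
    norm_num at this ⊢
    linarith
  · rw [Lam_eq]
    have hL0 : 0 < Real.log 3 := by linarith [Pool.Agent.K3h19.RV.log3_pos]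
    have h1 : Real.log (3 ^ 3 : ℝ) < Real.log ((3 ^ 5 + 1) / 4) :=
      Real.log_lt_log (by norm_num) (by norm_num)
    rw [Real.log_pow] at h1
    have h : 4 < Pool.Agent.K3h19.RV.Lam 5 := by
      unfold Pool.Agent.K3h19.RV.Lam
      have h2 : 3 < Real.log ((3 ^ 5 + 1) / 4) / Real.log 3 := by
        rw [lt_div_iff₀ hL0]
        exact_mod_cast h1
      linarith
    rw [div_lt_div_iff₀ (by linarith) (by norm_num)]
    linarith

end Pool.Agent.Results.MP_73b532_nt.AlmostPrimesAllScales
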