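import Pool.Agent.Zk95.TR.Prog
import Pool.Agent.Results.MP_73b532_nt.AsymptoticEveryModulus

/-!
# Knjzek partitions for all even integers of long windows of residue classes near the powers of almost every real number

Let `v_j ≥ 1` be reals such that the sum of `v_j ^ (-t)` converges for some `t` (for instance `v_j = j`, `√j`, `2 ^ j`),
let `b ≥ 1`, let `q_j ≤ b ^ (2 v_j / 3)` be ARBITRARY moduli, and let `cls j` be an arbitrary set of at most `v_j ^ T` residue
classes `a` modulo `q_j` with `gcd (a, q_j) ≤ v_j ^ T`. For almost every real `α > b`, all `ε > 0`, `W`, `A` and all large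
`j`: EVERY even integer `m` with `|m - α ^ (v_j)| ≤ q_j v_j ^ A` whose class modulo `q_j` belongs to `cls j` has a partition
`m = p + q` with `√m < p < m / 2`, and the predicted number of partitions with `p` in every window of length at least
`m / (log m) ^ W` between `√m` and `m / 2` (`Holds ε W m`, definition of the starting file `AsymptoticEveryModulus`).
The windows for `m` may be as long as `α ^ ((2/3 - ρ) v_j)`, `ρ > 0`. For `q_j = 1` these are all even integers within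
`v_j ^ A` of `α ^ (v_j)`; for `q_j = 10 ^ (k_j)` all even integers in a long window with the last `k_j` digits prescribed.

Proof. Borel-Cantelli with the starting theorem on the residue classes of every modulus.
-/

set_option autoImplicit false

namespace Pool.Agent.Results.MP_73b532_nt.LongWindowsNearPowers

open MeasureTheory
open Pool.Agent.H560R3.GB (sing)
open Pool.Agent.Results.MP_73b532_nt.AsymptoticEveryModulus (Holds exceptional)

/-- `Holds` is monotone in `ε` and antitone in `W` for large numbers -/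
lemma mono {ε ε' : ℝ} (hε : ε ≤ ε') {W W' : ℕ} (hW : W ≤ W') {m : ℕ} (hm : 3 ≤ m) (h : Holds ε W' m) :
    Holds ε' W m := by
  have hm3 : (3 : ℝ) ≤ m := by exact_mod_cast hm
  have hL1 : 1 ≤ Real.log m := by
    rw [Real.le_log_iff_exp_le (by linarith)]
    have := Real.exp_one_lt_d9
    linarith
  have hs := Pool.Agent.W93.GB.one_le_sing m
  have hs0 : (0 : ℝ) ≤ sing m := by linarith
  have hlen : (m : ℝ) / Real.log m ^ W' ≤ (m : ℝ) / Real.log m ^ W := by
    apply div_le_div_of_nonneg_left (Nat.cast_nonneg _) (by positivity)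
    exact pow_le_pow_right₀ hL1 hW
  have hlen0 : 0 < (m : ℝ) / Real.log m ^ W' := by
    have : (0 : ℝ) < m := by linarith
    positivity
  refine ⟨fun u v hu hv huv => ?_, ?_⟩
  · have h3 : (0 : ℝ) ≤ v - u := by linarith
    exact (h.1 u v hu hv (by linarith)).trans (mul_le_mul_of_nonneg_right hε (by positivity))
  · obtain ⟨p, h1, h2, h4, h5, h6⟩ := h.2
    exact ⟨p, h1, h2, h4, h5, by linarith⟩

lemma thin (ε : ℝ) (hε : 0 < ε) (W : ℕ) (hW : 1 ≤ W) :
    Pool.Agent.Zk95.TR.ClassThin (2 / 3) (fun m => 2 ∣ m ∧ ¬ Holds ε W m) := by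
  intro ρ hρ A T
  obtain ⟨x₀, hx₀⟩ := Pool.Agent.Results.MP_73b532_nt.AsymptoticEveryModulus.result ε ρ hε hρ W hW A T
  refine ⟨x₀, fun x hx q hq hqx a ha => ?_⟩
  have e : {m : ℕ | 0 < m ∧ (m : ℝ) ≤ x ∧ (m : ℤ) ≡ a [ZMOD q] ∧ 2 ∣ m ∧ ¬ Holds ε W m} = exceptional ε W x q a := by
    ext m
    constructor
    · rintro ⟨h1, h2, h3, h4, h5⟩
      exact ⟨h1, h2, h4, h3, h5⟩
    · rintro ⟨h1, h2, h4, h3, h5⟩
      exact ⟨h1, h2, h3, h4, h5⟩
  rw [e]
  exact hx₀ x hx q hq hqx a ha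

/-- **Theorem.** Let `v_j ≥ 1` with `∑ v_j ^ (-t) < ∞` for some `t`, `b ≥ 1`, `q_j` arbitrary moduli with
`1 ≤ q_j ≤ b ^ (2 v_j / 3)` and `cls j` sets of at most `v_j ^ T` integers `a` with `gcd (a, q_j) ≤ v_j ^ T`. There is a null
set `Z` such that for all `α > b` outside `Z`, all `ε > 0`, `W` and `A` and all but finitely many `j`: EVERY even integer
`m ≡ a (mod q_j)`, `a ∈ cls j`, with `|m - α ^ (v_j)| ≤ q_j v_j ^ A` satisfies `Holds ε W m`: (1) for every interval `(u, v]`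
with `√m ≤ u`, `v ≤ m / 2` and `v - u ≥ m / (log m) ^ W` the number of the primes `p` in it with `m - p` a prime different
from `p` is `sing m (v - u) / (log m)²` up to a relative error of at most `ε`; (2) there are primes `p` and `m - p` with
`√m < p < m / 2` and `p ≤ √m + m / (log m) ^ W`. -/
theorem result (v : ℕ → ℝ) (hv : ∀ j, 1 ≤ v j) (t : ℝ) (ht : Summable fun j => (v j) ^ (-t))
    (b : ℝ) (hb : 1 ≤ b) (q : ℕ → ℕ) (hq : ∀ j, 1 ≤ q j) (hqb : ∀ j, (q j : ℝ) ≤ b ^ (2 / 3 * v j))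
    (cls : ℕ → Finset ℤ) (T : ℕ) (hcard : ∀ j, ((cls j).card : ℝ) ≤ (v j) ^ T)
    (hgcd : ∀ j, ∀ a ∈ cls j, (Int.gcd a (q j) : ℝ) ≤ (v j) ^ T) :
    ∃ Z : Set ℝ, volume Z = 0 ∧ ∀ α : ℝ, b < α → α ∉ Z → ∀ ε : ℝ, 0 < ε → ∀ W A : ℕ, ∃ j₀ : ℕ, ∀ j : ℕ, j₀ ≤ j →
      ∀ a ∈ cls j, ∀ m : ℕ, 2 ∣ m → (m : ℤ) ≡ a [ZMOD q j] → |(m : ℝ) - α ^ (v j)| ≤ q j * (v j) ^ A →
        Holds ε W m := by
  obtain ⟨Z, hZ, h⟩ := Pool.Agent.Zk95.TR.class_windows
    (fun (i : ℕ × ℕ) m => 2 ∣ m ∧ ¬ Holds (1 / ((i.1 : ℝ) + 1)) (i.2 + 1) m) (c := 2 / 3)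
    (by norm_num) (by norm_num) (fun i => thin _ (by positivity) _ (by omega)) hv ht hb q hq hqb cls T hcard hgcd
  refine ⟨Z, hZ, fun α hα hαZ ε hε W A => ?_⟩
  obtain ⟨k, hk⟩ := exists_nat_one_div_lt hε
  obtain ⟨j₀, hj⟩ := h α hα hαZ (k, W) A 3
  refine ⟨j₀, fun j hj1 a ha m hm hma hmx => ?_⟩
  obtain ⟨h1, h2⟩ := hj j hj1 a ha m hma hmx
  by_contra hcon
  exact h2 ⟨hm, fun h3 => hcon (mono hk.le (Nat.le_succ W) h1 h3)⟩

end Pool.Agent.Results.MP_73b532_nt.LongWindowsNearPowers
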