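import Pool.Agent.Zk41.NP4
import Pool.Agent.R460.GS.Conv

/-!
# Szemerédi's theorem with narrow progressions in all windows of the Goldbach-Knjzek partitions

Knjzek's conjecture: every even `m > 4` is `p + q` with primes `p`, `q` and `√m < p ≤ m / 2`.

For every modulus `q ≤ x ^ (7 / 10 - ρ)` (no exceptional moduli) and every class `a` with `gcd(a, q) ≤ (log x) ^ T` all but at
most `x / (q (log x) ^ A)` of the even `m ≤ x`, `m ≡ a (mod q)`, are such that EVERY window `(u, v] ⊆ (√m, m / 2]` with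
`v - u ≥ m / (log m) ^ W` contains at least a twenty-first of the expected number of primes `p` with `m - p` prime, and every
subset with a positive proportion of their number contains `k` primes in arithmetic progression with difference at most
`(log m) ^ B`. The exponent `B` depends only on `W`, `k` and the proportion, not on `ρ`, `A`, `T`.

Definition used from `Pool.Agent.H560R3.GB` (starting files): `sing m`: the singular series
`2 C₂ ∏_{p ∣ m, p > 2} (p - 1) / (p - 2)`, where `C₂ = ∏_{p > 2} (1 - 1 / (p - 1) ^ 2)`.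

Proof. The theorem `S_ENGX` of the starting files (`K3h89.SX`) on dense sets of primes `p` with `m - p` rough is applied there
to Rivera's window `√m < p < 4 √m`; here the hypotheses on the common prime factors of `x (m - x)` and `(x + h) (m - x - h)` are
verified for ALL windows of length `≥ m ^ θ` (`Zk41.NP1`, `Zk41.NP2`, `Zk41.NP4`); the lower bounds are those of project GS
(`R460.GS`).
-/

set_option autoImplicit false

namespace Pool.Agent.Results.MP_73b532_nt.NarrowProgressions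

open Finset Filter
open Pool.Agent.H560R3.GB (sing C₂)
open Pool.Agent.W93.PG (cnt)

/-- `S` contains a progression `a, a + d, …, a + (k - 1) d` with difference `1 ≤ d ≤ D`. -/
def HasAP (k : ℕ) (D : ℝ) (S : Finset ℕ) : Prop :=
  ∃ a d : ℕ, 1 ≤ d ∧ (d : ℝ) ≤ D ∧ ∀ i < k, a + i * d ∈ S

open Classical in
/-- the primes `p` with `u < p ≤ v` such that `m - p` is a prime -/
noncomputable def G (m : ℕ) (u v : ℝ) : Finset ℕ :=
  (range (m + 1)).filter (fun p : ℕ => p.Prime ∧ (m - p).Prime ∧ u < p ∧ (p : ℝ) ≤ v)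

/-- Every window `(u, v]` with `√m ≤ u`, `v ≤ m / 2` and `v - u ≥ m / (log m)^W` contains at least
`(1 / 21) sing m (v - u) / (log m)²` primes `p` with `m - p` prime, and every set of at least `κ` times the number of
these primes contains a progression of length `k` with difference at most `(log m) ^ B`. -/
def Holds (W k : ℕ) (κ : ℝ) (B m : ℕ) : Prop :=
  ∀ u v : ℝ, √(m : ℝ) ≤ u → v ≤ (m : ℝ) / 2 → (m : ℝ) / Real.log m ^ W ≤ v - u →
    1 / 21 * (sing m * (v - u) / Real.log m ^ 2) ≤ (G m u v).card ∧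
    ∀ S ⊆ G m u v, κ * (G m u v).card ≤ S.card → HasAP k (Real.log m ^ B) S

lemma cnt_le (m : ℕ) (u v : ℝ) (hu : 0 ≤ u) (hv : v ≤ m) :
    cnt m ⌊u⌋₊ ⌊v⌋₊ ≤ (G m u v).card := by
  classical
  unfold cnt G
  apply card_le_card
  intro p hp
  rw [mem_filter, mem_Ioc] at hp
  obtain ⟨⟨h1, h2⟩, h3, h4⟩ := hp
  have h5 : u < p := (Nat.floor_lt hu).1 h1
  have h6 : (p : ℝ) ≤ v := by
    rcases le_or_gt 0 v with h | h
    · exact (Nat.le_floor_iff h).1 h2
    · rw [Nat.floor_of_nonpos h.le] at h2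
      omega
  rw [mem_filter, mem_range]
  refine ⟨?_, h3, h4, h5, h6⟩
  have : (p : ℝ) ≤ m := h6.trans hv
  have : p ≤ m := by exact_mod_cast this
  omega

/-- one `m` -/
theorem holds_of (W k : ℕ) (κ : ℝ) (hκ : 0 < κ) : ∃ B n₀ : ℕ, ∀ m : ℕ, n₀ ≤ m → 2 ∣ m →
    Pool.Agent.R460.GS.WinL (W + 1) m → Holds W k κ B m := by
  obtain ⟨x₀, hx₀⟩ := Filter.eventually_atTop.1
    (Pool.Agent.R460.GS.real_log (W + 1) (s := 1 / 2) (by norm_num) 21)
  obtain ⟨B, m₀, hdense⟩ := Pool.Agent.Zk41.NP.dense (1 / 2) (by norm_num) k (1 / 2) (κ * (1 / 21)) (by norm_num)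
    (by positivity)
  refine ⟨B, ⌈x₀⌉₊ + 100 + m₀, fun m hm h2m hwin u v hu hv huv => ?_⟩
  have hmx : x₀ ≤ (m : ℝ) := (Nat.le_ceil x₀).trans (by exact_mod_cast (by omega : ⌈x₀⌉₊ ≤ m))
  obtain ⟨hL, hLW⟩ := hx₀ m hmx
  have hm0 : (100 : ℝ) ≤ m := by exact_mod_cast (by omega : 100 ≤ m)
  obtain ⟨L, hLd⟩ : ∃ L, L = Real.log m := ⟨_, rfl⟩
  rw [← hLd] at hL hLW
  have hL0 : 0 < L := by linarith
  have hL1 : 1 ≤ L := by linarith
  have hsq : (m : ℝ) ^ (1 / 2 : ℝ) = √(m : ℝ) := by rw [Real.sqrt_eq_rpow]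
  rw [hsq] at hLW
  have hs0 : 0 < √(m : ℝ) := Real.sqrt_pos.2 (by linarith)
  have hss : √(m : ℝ) * √(m : ℝ) = m := Real.mul_self_sqrt (by linarith)
  have hpW : 0 < L ^ W := by positivity
  have hpW1 : 0 < L ^ (W + 1) := by positivity
  -- the length of the windows is at least `√m`
  have hlen1 : √(m : ℝ) ≤ m / L ^ (W + 1) := by
    rw [le_div_iff₀ hpW1]
    nlinarith
  have hlen2 : L * (m / L ^ (W + 1)) = m / L ^ W := by
    rw [pow_succ]
    field_simp
  have hs10 : 10 ≤ √(m : ℝ) := by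
    rw [show (10 : ℝ) = √(100 : ℝ) by
      rw [show (100 : ℝ) = 10 ^ 2 by norm_num, Real.sqrt_sq (by norm_num)]]
    exact Real.sqrt_le_sqrt hm0
  have hsing := Pool.Agent.R460.GS.one_le_sing m
  rw [← hLd] at huv
  have hu0 : 0 ≤ u := hs0.le.trans hu
  have hvu : 21 * √(m : ℝ) ≤ v - u := by
    have : 21 * (m / L ^ (W + 1)) ≤ m / L ^ W := by
      rw [← hlen2]
      exact mul_le_mul_of_nonneg_right hL (by positivity)
    linarith
  have hv0 : 0 ≤ v := by linarith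
  have hvm : v ≤ m := by linarith
  have hcount : 1 / 21 * (sing m * (v - u) / L ^ 2) ≤ ((G m u v).card : ℝ) := by
    have hf1 : (⌊u⌋₊ : ℝ) ≤ u := Nat.floor_le hu0
    have hf2 : v < ⌊v⌋₊ + 1 := Nat.lt_floor_add_one v
    have hf3 : (⌊v⌋₊ : ℝ) ≤ v := Nat.floor_le hv0
    have hd : v - u - 1 ≤ (⌊v⌋₊ : ℝ) - ⌊u⌋₊ := by linarith
    have hlt : ⌊u⌋₊ < ⌊v⌋₊ := by
      have : (⌊u⌋₊ : ℝ) < ⌊v⌋₊ := by linarith
      exact_mod_cast this
    have hle : ⌊v⌋₊ ≤ m := by
      have : (⌊v⌋₊ : ℝ) ≤ m := by linarith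
      exact_mod_cast this
    have h2 := hwin ⌊u⌋₊ ⌊v⌋₊ hlt hle (by
      rw [← hLd]
      refine le_trans ?_ hd
      have h3 : 2 * (m / L ^ (W + 1)) ≤ m / L ^ W := by
        rw [← hlen2]
        exact mul_le_mul_of_nonneg_right (by linarith) (by positivity)
      linarith)
    rw [← hLd] at h2
    have h3 : (cnt m ⌊u⌋₊ ⌊v⌋₊ : ℝ) ≤ (G m u v).card := by exact_mod_cast cnt_le m u v hu0 hvm
    refine le_trans ?_ (h2.trans h3)
    have h4 : 20 / 21 * (v - u) ≤ (⌊v⌋₊ : ℝ) - ⌊u⌋₊ := by linarith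
    have h5 : 0 < L ^ 2 := by positivity
    rw [mul_div_assoc', mul_div_assoc', div_le_div_iff_of_pos_right h5]
    nlinarith
  rw [← hLd]
  refine ⟨hcount, fun S hS hSc => ?_⟩
  rw [hLd]
  apply hdense m (by omega) (even_iff_two_dvd.2 h2m) u v hu hv (by rw [hsq]; linarith) S
  · intro p hp
    have h1 := hS hp
    unfold G at h1
    rw [mem_filter] at h1
    obtain ⟨-, h3, h4, h5, h6⟩ := h1
    refine ⟨h3, h5, h6, fun q hq hqd => ?_⟩
    have h7 : q = m - p := (Nat.prime_dvd_prime_iff_eq hq h4).1 hqd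
    have hpm : (p : ℝ) ≤ m := h6.trans hvm
    have hpm' : p ≤ m := by exact_mod_cast hpm
    rw [h7, Nat.cast_sub hpm', hsq]
    nlinarith
  · rw [← hLd]
    refine le_trans ?_ hSc
    calc κ * (1 / 21) * (sing m * (v - u) / L ^ 2) = κ * (1 / 21 * (sing m * (v - u) / L ^ 2)) := by ring
      _ ≤ κ * (G m u v).card := mul_le_mul_of_nonneg_left hcount hκ.le

/-- **Szemerédi's theorem in all windows of the Goldbach-Knjzek partitions.** See the description above. -/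
theorem result (W k : ℕ) (κ : ℝ) (hκ : 0 < κ) : ∃ B : ℕ, ∀ ρ : ℝ, 0 < ρ → ∀ A T : ℕ, ∃ x₀ : ℝ, ∀ x : ℝ, x₀ ≤ x →
    ∀ q : ℕ, 1 ≤ q → (q : ℝ) ≤ x ^ (7 / 10 - ρ) → ∀ a : ℤ, (Int.gcd a q : ℝ) ≤ Real.log x ^ T →
      ({m : ℕ | 0 < m ∧ (m : ℝ) ≤ x ∧ 2 ∣ m ∧ (m : ℤ) ≡ a [ZMOD q] ∧ ¬ Holds W k κ B m}).Finite ∧
      (({m : ℕ | 0 < m ∧ (m : ℝ) ≤ x ∧ 2 ∣ m ∧ (m : ℤ) ≡ a [ZMOD q] ∧ ¬ Holds W k κ B m}.ncard : ℕ) : ℝ) ≤
        x / (q * Real.log x ^ A) := by
  obtain ⟨B, hB⟩ := holds_of W k κ hκ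
  exact ⟨B, fun ρ hρ A T => Pool.Agent.R460.GS.class_few (Holds W k κ B) (W + 1) hB ρ hρ A T⟩

end Pool.Agent.Results.MP_73b532_nt.NarrowProgressions
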